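import Pool.Agent.Y620.DL.Main2

/-!
# Dual `λ`-approximation property and renormings of the predual: every `λ > 1` close to `1`

The question: if the space `E` has the `λ`-approximation property for each of the norms
`preN Γ β` (`Γ` a finite-dimensional subspace of `E*`, `β > 0`; the dual norm of `preN Γ β` is
`‖f‖ + 4 β dist(f, Γ)`), must `E*` have the `λ`-approximation property? For `λ = 1` the answer is
yes. The starting theorem `DualLambdaAPNo` gives one `λ` for which the answer is no. Here the answer
is no for EVERY `λ` in an interval `(1, lam0]`, so that the case `λ = 1` is isolated, and the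
failure is quantitative: `E*` fails the `mu`-approximation property for all
`mu < lam + c (lam - 1)`, with a constant `c > 0` which does not depend on `lam`.
-/

set_option autoImplicit false

namespace Pool.Agent.Results.MP_a5ef6c_an.EveryConstantNearOne

open Pool.Agent.Helper130.DL

/-- There are `lam0 > 1` and `c > 0` such that for every `lam` with `1 < lam ≤ lam0` there is a
real Banach space `E` with the following two properties. (1) For every finite-dimensional subspace
`Γ` of `E*` and every `β > 0` the function `preN Γ β` is an equivalent norm on `E` with the dual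
norm `f ↦ ‖f‖ + 4 β dist(f, Γ)`, and `E` with this norm has the `lam`-approximation property.
(2) `E*` with its original dual norm fails the `mu`-approximation property for all
`mu < lam + c (lam - 1)`, in particular for `mu = lam`. -/
theorem result : ∃ lam0 c : ℝ, 1 < lam0 ∧ 0 < c ∧ ∀ lam : ℝ, 1 < lam → lam ≤ lam0 →
    ∃ (E : Type) (_ : NormedAddCommGroup E) (_ : NormedSpace ℝ E) (_ : CompleteSpace E),
      (∀ Γ : Submodule ℝ (StrongDual ℝ E), FiniteDimensional ℝ Γ → ∀ β : ℝ, 0 < β →
        ((∃ N : Seminorm ℝ E, ∀ x, N x = preN Γ β x) ∧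
          (∀ x, ‖x‖ ≤ (1 + 4 * β) * preN Γ β x ∧ preN Γ β x ≤ ‖x‖) ∧
          (∀ f : StrongDual ℝ E,
            IsLUB {t : ℝ | ∃ x, preN Γ β x ≤ 1 ∧ t = |f x|} (dualN Γ β f))) ∧
        HasLAP E (preN Γ β) lam) ∧
      ∀ mu : ℝ, mu < lam + c * (lam - 1) → ¬ HasLAP (StrongDual ℝ E) (fun f => ‖f‖) mu :=
  Pool.Agent.Y620.DL.main2

end Pool.Agent.Results.MP_a5ef6c_an.EveryConstantNearOne
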